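import Mathlib
import Pool.Agent.TH876.PW.Gap
import Pool.Agent.TH876.PW.Classes
import Pool.Agent.TH876.PW.Vanish
import Pool.Agent.TH876.PW.Choose
import Pool.Agent.TH876.PW.Core
import Pool.Agent.TH876.PW.Rads
import Pool.Agent.TH876.PW.Two
import Pool.Agent.TH876.PW.Three

set_option autoImplicit false

/-! Semistable elliptic curves over `ℚ` with a rational point of order two or three, of conductor at
most `X`, without bad primes larger than `y` and with `log |Δ| ≤ H`: at most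
`C y X ^ (3/4 + ε) (1 + log H)`, respectively `C y X ^ (2/3 + ε) (1 + log H)`. -/

namespace Pool.Agent.Results.MP_ca2859_nt.RationalTorsionPoint

open Pool.Agent.TH876.PW

/-- the product of the distinct primes dividing `Δ(W)` (the conductor if `gcd(c₄, Δ) = 1`) -/
def Conductor (W : WeierstrassCurve ℤ) : ℕ := ∏ p ∈ W.Δ.natAbs.primeFactors, p

/-- the pairs `(c₄, c₆)` of the integral Weierstrass curves with `Δ ≠ 0`, `gcd(c₄, Δ) = 1` and the
property `P`, conductor at most `X`, no bad primes larger than `y` and `log |Δ| ≤ H` -/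
def Semistable (P : WeierstrassCurve ℤ → Prop) (X y H : ℝ) : Set (ℤ × ℤ) :=
  {q | ∃ W : WeierstrassCurve ℤ, W.Δ ≠ 0 ∧ IsCoprime W.c₄ W.Δ ∧ P W ∧ q = (W.c₄, W.c₆) ∧
    (Conductor W : ℝ) ≤ X ∧ (∀ p ∈ W.Δ.natAbs.primeFactors, (p : ℝ) ≤ y) ∧
    Real.log |(W.Δ : ℝ)| ≤ H}

/-- there is a rational point of order 2: `4x³ + b₂x² + 2b₄x + b₆` has a rational root -/
def TwoTorsion (W : WeierstrassCurve ℤ) : Prop :=
  ∃ r : ℚ, 4 * r ^ 3 + W.b₂ * r ^ 2 + 2 * W.b₄ * r + W.b₆ = 0

/-- there is a rational point of order 3: a rational point `(x, y)` of the curve at which the third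
division polynomial vanishes -/
def ThreeTorsion (W : WeierstrassCurve ℤ) : Prop :=
  ∃ x y : ℚ, y ^ 2 + W.a₁ * x * y + W.a₃ * y = x ^ 3 + W.a₂ * x ^ 2 + W.a₄ * x + W.a₆ ∧
    3 * x ^ 4 + W.b₂ * x ^ 3 + 3 * W.b₄ * x ^ 2 + 3 * W.b₆ * x + W.b₈ = 0

/-- For every `ε > 0` there is `C` such that for all `X, y, H ≥ 1` there are at most
`C y X ^ (3/4 + ε) (1 + log H)` semistable curves over `ℚ` with a rational point of order two, and at
most `C y X ^ (2/3 + ε) (1 + log H)` with a rational point of order three, of conductor at most `X`,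
without bad primes larger than `y` and with `log |Δ| ≤ H`. -/
theorem result (ε : ℝ) (hε : 0 < ε) : ∃ C : ℝ, ∀ X y H : ℝ, 1 ≤ X → 1 ≤ y → 1 ≤ H →
    ((Semistable TwoTorsion X y H).Finite ∧
      ((Semistable TwoTorsion X y H).ncard : ℝ) ≤
        C * y * X ^ ((3 : ℝ) / 4 + ε) * (1 + Real.log H)) ∧
    ((Semistable ThreeTorsion X y H).Finite ∧
      ((Semistable ThreeTorsion X y H).ncard : ℝ) ≤
        C * y * X ^ ((2 : ℝ) / 3 + ε) * (1 + Real.log H)) := by
  have h2 : TwoRad := twoRad (core (gap divis vanish) classes) choose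
  obtain ⟨C₁, h₁⟩ := two h2 ε hε
  obtain ⟨C₂, h₂⟩ := three h2 ε hε
  refine ⟨max C₁ C₂, fun X y H hX hy hH => ?_⟩
  have hX0 : (0 : ℝ) < X := by linarith
  have hL : 0 ≤ Real.log H := Real.log_nonneg hH
  have e1 : Semistable TwoTorsion X y H = Curves HasTwoTorsion X y H := rfl
  have e2 : Semistable ThreeTorsion X y H = Curves3 HasThreeTorsion X y H := rfl
  obtain ⟨f1, g1⟩ := h₁ X y H hX hy hH
  obtain ⟨f2, g2⟩ := h₂ X y H hX hy hH
  rw [e1, e2]
  refine ⟨⟨f1, g1.trans ?_⟩, f2, g2.trans ?_⟩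
  · have : C₁ ≤ max C₁ C₂ := le_max_left _ _
    gcongr
  · have : C₂ ≤ max C₁ C₂ := le_max_right _ _
    gcongr

end Pool.Agent.Results.MP_ca2859_nt.RationalTorsionPoint
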